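import Mathlib

/-!
# The K-convexity constant is not bounded by a multiple of the `MM*` product

`K` is a symmetric convex body of `ℝⁿ`, `X_K` the normed space with unit ball `K`.  We disprove
`K(X_K) ≤ C · MM*(K)`: for `n = 4^k` and an embedding of the `2^k` sign vectors in the coordinates,
the body `K = {|x|₂ ≤ 1, ∑ |x_{φ ε}| ≤ 1}` has `MM*(K) ≤ 2`, and its K-convexity constant is at least
`√(k/3)` since `X_K` contains `ℓ₁^{2^k}` isometrically.
-/

open MeasureTheory Metric Set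
open scoped Pointwise RealInnerProductSpace ENNReal

namespace Pool.Agent.Results.MP_1453e0_an.NotEquivalent

noncomputable section

/-- Euclidean space `ℝⁿ`. -/
abbrev E (n : ℕ) : Type := EuclideanSpace ℝ (Fin n)

/-- A symmetric convex body in `ℝⁿ`: a compact convex set with nonempty interior and `-K = K`. -/
structure IsSymmConvexBody {n : ℕ} (K : Set (E n)) : Prop where
  compact : IsCompact K
  convex : Convex ℝ K
  interior_nonempty : (interior K).Nonempty
  symm : -K = K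

/-- The normalized rotation-invariant (surface) measure on the Euclidean unit sphere of `ℝⁿ`. -/
def sigma (n : ℕ) : Measure (sphere (0 : E n) 1) :=
  ((volume : Measure (E n)).toSphere univ)⁻¹ • (volume : Measure (E n)).toSphere

/-- `M(K) = ∫ ‖x‖_K dσ(x)`, where `‖x‖_K` is the gauge (Minkowski functional) of `K`. -/
def M {n : ℕ} (K : Set (E n)) : ℝ := ∫ x, gauge K (x : E n) ∂(sigma n)

/-- `M*(K) = ∫ sup_{y ∈ K} ⟨x, y⟩ dσ(x)`. -/
def Mstar {n : ℕ} (K : Set (E n)) : ℝ :=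
  ∫ x, sSup ((fun y : E n => ⟪(x : E n), y⟫) '' K) ∂(sigma n)

/-- The `MM*` product: the infimum over `T ∈ GL_n(ℝ)` of `M(TK) M*(TK)`. -/
def MMstar {n : ℕ} (K : Set (E n)) : ℝ :=
  ⨅ T : E n ≃ₗ[ℝ] E n, M (T '' K) * Mstar (T '' K)

/-- Expectation over `m` independent uniform signs. -/
def expect {m : ℕ} {V : Type} [AddCommGroup V] [Module ℝ V] (f : (Fin m → ℤˣ) → V) : V :=
  ((2 : ℝ) ^ m)⁻¹ • ∑ ε, f ε

/-- The Rademacher projection `R_m f = ∑ ε_i E[ε_i f]`. -/
def radProj {m n : ℕ} (f : (Fin m → ℤˣ) → E n) : (Fin m → ℤˣ) → E n :=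
  fun ε => ∑ i, ((ε i : ℤ) : ℝ) • expect (fun δ => ((δ i : ℤ) : ℝ) • f δ)

/-- The norm of `L_2({-1,1}^m; X_K)`. -/
def L2norm {m n : ℕ} (K : Set (E n)) (f : (Fin m → ℤˣ) → E n) : ℝ :=
  √(expect fun ε => gauge K (f ε) ^ 2)

/-- The K-convexity constant of `X_K`: the supremum over `m` of the operator norm of the
Rademacher projection on `L_2({-1,1}^m; X_K)`. -/
def Kconv {n : ℕ} (K : Set (E n)) : ℝ≥0∞ :=
  ⨆ (m : ℕ) (f : (Fin m → ℤˣ) → E n) (_ : L2norm K f ≤ 1), ENNReal.ofReal (L2norm K (radProj f))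

/-! ### The surface measure -/

/-- restriction of a linear isometry to the unit sphere -/
def sphMap {n : ℕ} (U : E n ≃ₗᵢ[ℝ] E n) (x : sphere (0 : E n) 1) : sphere (0 : E n) 1 :=
  ⟨U x, by simp⟩

lemma continuous_sphMap {n : ℕ} (U : E n ≃ₗᵢ[ℝ] E n) : Continuous (sphMap U) :=
  (U.continuous.comp continuous_subtype_val).subtype_mk _

lemma toSphere_preimage {n : ℕ} (U : E n ≃ₗᵢ[ℝ] E n) {s : Set (sphere (0 : E n) 1)}
    (hs : MeasurableSet s) :
    (volume : Measure (E n)).toSphere (sphMap U ⁻¹' s) = (volume : Measure (E n)).toSphere s := by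
  rw [Measure.toSphere_apply' _ hs,
    Measure.toSphere_apply' _ ((continuous_sphMap U).measurable hs)]
  congr 1
  have h : (Ioo (0 : ℝ) 1 • ((↑) '' (sphMap U ⁻¹' s)) : Set (E n)) =
      U ⁻¹' (Ioo (0 : ℝ) 1 • ((↑) '' s)) := by
    ext x
    simp only [mem_smul, mem_image, mem_preimage, Subtype.exists, exists_and_right,
      exists_eq_right]
    constructor
    · rintro ⟨r, hr, y, ⟨hy, hys⟩, rfl⟩
      exact ⟨r, hr, U y, ⟨by simpa using hy, hys⟩, by simp⟩
    · rintro ⟨r, hr, y, ⟨hy, hys⟩, hxy⟩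
      refine ⟨r, hr, U.symm y, ⟨by simpa using hy, ?_⟩, ?_⟩
      · have : sphMap U ⟨U.symm y, by simpa using hy⟩ = ⟨y, hy⟩ := by
          simp [sphMap]
        rw [this]; exact hys
      · apply U.injective
        rw [← hxy]; simp
  rw [h]
  exact (U.measurePreserving).measure_preimage_emb U.toHomeomorph.measurableEmbedding _

lemma sigma_map {n : ℕ} (U : E n ≃ₗᵢ[ℝ] E n) : (sigma n).map (sphMap U) = sigma n := by
  ext s hs
  rw [Measure.map_apply (continuous_sphMap U).measurable hs]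
  simp only [sigma, Measure.smul_apply]
  rw [toSphere_preimage U hs]

instance {n : ℕ} : IsFiniteMeasure (sigma n) := by
  rcases Nat.eq_zero_or_pos n with rfl | hn
  · constructor
    simp only [sigma, Measure.smul_apply]
    have : ((volume : Measure (E 0)).toSphere univ) = 0 := by simp
    rw [this]; simp
  · constructor
    have : Nonempty (Fin n) := ⟨⟨0, hn⟩⟩
    simp only [sigma, Measure.smul_apply, smul_eq_mul]
    rw [ENNReal.inv_mul_cancel]
    · simp
    · rw [Ne, Measure.measure_univ_eq_zero]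
      exact Measure.toSphere_ne_zero _
    · exact measure_ne_top _ _

lemma sigma_univ {n : ℕ} (hn : 0 < n) : (sigma n) univ = 1 := by
  have : Nonempty (Fin n) := ⟨⟨0, hn⟩⟩
  simp only [sigma, Measure.smul_apply, smul_eq_mul]
  rw [ENNReal.inv_mul_cancel]
  · rw [Ne, Measure.measure_univ_eq_zero]
    exact Measure.toSphere_ne_zero _
  · exact measure_ne_top _ _

lemma integrable_of_continuous {n : ℕ} {f : sphere (0 : E n) 1 → ℝ} (hf : Continuous f) :
    Integrable f (sigma n) :=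
  hf.integrable_of_hasCompactSupport (HasCompactSupport.of_compactSpace f)

lemma integral_sq_eq {n : ℕ} (i j : Fin n) :
    ∫ x, ((x : E n) i) ^ 2 ∂(sigma n) = ∫ x, ((x : E n) j) ^ 2 ∂(sigma n) := by
  set U : E n ≃ₗᵢ[ℝ] E n := LinearIsometryEquiv.piLpCongrLeft 2 ℝ ℝ (Equiv.swap i j) with hU
  have h := sigma_map U
  conv_lhs => rw [← h]
  rw [integral_map (continuous_sphMap U).measurable.aemeasurable]
  · refine integral_congr_ae (Filter.Eventually.of_forall fun x => ?_)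
    have : (U (x : E n)) i = (x : E n) j := by
      simp [hU, LinearIsometryEquiv.piLpCongrLeft_apply, Equiv.piCongrLeft']
    show ((U (x : E n)) i) ^ 2 = _
    rw [this]
  · apply Continuous.aestronglyMeasurable
    fun_prop

lemma integral_sq {n : ℕ} (hn : 0 < n) (i : Fin n) :
    ∫ x, ((x : E n) i) ^ 2 ∂(sigma n) = 1 / n := by
  have h1 : ∑ j : Fin n, ∫ x, ((x : E n) j) ^ 2 ∂(sigma n) = 1 := by
    rw [← integral_finsetSum]
    · have : ∀ x : sphere (0 : E n) 1, ∑ j : Fin n, ((x : E n) j) ^ 2 = 1 := by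
        intro x
        have hx : ‖(x : E n)‖ = 1 := by simp
        have := EuclideanSpace.real_norm_sq_eq (x : E n)
        rw [← this, hx]; norm_num
      simp only [this]
      rw [integral_const, measureReal_def, sigma_univ hn]
      simp
    · intro j _
      apply integrable_of_continuous
      fun_prop
  have h2 : ∑ j : Fin n, ∫ x, ((x : E n) j) ^ 2 ∂(sigma n)
      = n * ∫ x, ((x : E n) i) ^ 2 ∂(sigma n) := by
    rw [Finset.sum_congr rfl (fun j _ => integral_sq_eq j i)]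
    simp
  have hn' : (n : ℝ) ≠ 0 := by positivity
  rw [h2] at h1
  field_simp
  linarith

/-! ### The body -/

/-- the body: Euclidean ball cut by an `ℓ₁` ball on the coordinates in the range of `φ` -/
def body {n k : ℕ} (φ : (Fin k → ℤˣ) ↪ Fin n) : Set (E n) :=
  {x | ‖x‖ ≤ 1 ∧ ∑ e, |x (φ e)| ≤ 1}

lemma body_symmConvex {n k : ℕ} (φ : (Fin k → ℤˣ) ↪ Fin n) : IsSymmConvexBody (body φ) where
  compact := by
    have h1 : body φ = closedBall (0 : E n) 1 ∩ {x | ∑ e, |x (φ e)| ≤ 1} := by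
      ext x; simp [body]
    rw [h1]
    apply (isCompact_closedBall _ _).inter_right
    apply isClosed_le _ continuous_const
    fun_prop
  convex := by
    rintro x ⟨hx1, hx2⟩ y ⟨hy1, hy2⟩ a b ha hb hab
    refine ⟨?_, ?_⟩
    · calc ‖a • x + b • y‖ ≤ ‖a • x‖ + ‖b • y‖ := norm_add_le _ _
        _ = a * ‖x‖ + b * ‖y‖ := by rw [norm_smul, norm_smul, Real.norm_of_nonneg ha,
            Real.norm_of_nonneg hb]
        _ ≤ a * 1 + b * 1 := by gcongr
        _ = 1 := by linarith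
    · calc ∑ e, |(a • x + b • y) (φ e)| ≤ ∑ e, (a * |x (φ e)| + b * |y (φ e)|) := by
            apply Finset.sum_le_sum
            intro e _
            have : (a • x + b • y) (φ e) = a * x (φ e) + b * y (φ e) := by simp
            rw [this]
            refine (abs_add_le _ _).trans ?_
            rw [abs_mul, abs_mul, abs_of_nonneg ha, abs_of_nonneg hb]
        _ = a * ∑ e, |x (φ e)| + b * ∑ e, |y (φ e)| := by
            rw [Finset.sum_add_distrib, Finset.mul_sum, Finset.mul_sum]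
        _ ≤ a * 1 + b * 1 := by gcongr
        _ = 1 := by linarith
  interior_nonempty := by
    refine ⟨0, ?_⟩
    rw [mem_interior]
    refine ⟨{x | ‖x‖ < 1} ∩ {x | ∑ e, |x (φ e)| < 1}, ?_, ?_, ?_⟩
    · rintro x ⟨h1, h2⟩
      exact ⟨le_of_lt h1, le_of_lt h2⟩
    · apply IsOpen.inter
      · exact isOpen_lt continuous_norm continuous_const
      · apply isOpen_lt _ continuous_const
        fun_prop
    · constructor <;> simp
  symm := by
    ext x
    simp [body]

lemma gauge_body_le {n k : ℕ} (φ : (Fin k → ℤˣ) ↪ Fin n) (x : E n) (hx : ‖x‖ = 1) :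
    gauge (body φ) x ≤ 1 + ∑ e, |x (φ e)| := by
  set s := ∑ e, |x (φ e)| with hs
  have hs0 : 0 ≤ s := Finset.sum_nonneg fun _ _ => abs_nonneg _
  apply gauge_le_of_mem (by linarith)
  rw [mem_smul_set_iff_inv_smul_mem₀ (by linarith)]
  have hpos : (0 : ℝ) < 1 + s := by linarith
  refine ⟨?_, ?_⟩
  · rw [norm_smul, hx, norm_inv, Real.norm_of_nonneg hpos.le, mul_one]
    exact inv_le_one_of_one_le₀ (by linarith)
  · have : ∀ e, |((1 + s)⁻¹ • x) (φ e)| = (1 + s)⁻¹ * |x (φ e)| := by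
      intro e
      simp [abs_mul, abs_of_pos hpos]
    simp only [this]
    rw [← Finset.mul_sum, ← hs, inv_mul_le_iff₀ hpos]
    linarith

lemma le_gauge_body {n k : ℕ} (φ : (Fin k → ℤˣ) ↪ Fin n) (x : E n) :
    ∑ e, |x (φ e)| ≤ gauge (body φ) x := by
  have habs : Absorbent ℝ (body φ) := by
    apply absorbent_nhds_zero
    have := (body_symmConvex φ).interior_nonempty
    have h0 : (0 : E n) ∈ interior (body φ) := by
      rw [mem_interior]
      refine ⟨{x | ‖x‖ < 1} ∩ {x | ∑ e, |x (φ e)| < 1}, ?_, ?_, ?_⟩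
      · rintro x ⟨h1, h2⟩
        exact ⟨le_of_lt h1, le_of_lt h2⟩
      · apply IsOpen.inter
        · exact isOpen_lt continuous_norm continuous_const
        · apply isOpen_lt _ continuous_const
          fun_prop
      · constructor <;> simp
    exact mem_interior_iff_mem_nhds.1 h0
  apply le_csInf habs.gauge_set_nonempty
  rintro r ⟨hr, hxr⟩
  rw [mem_smul_set_iff_inv_smul_mem₀ (ne_of_gt hr)] at hxr
  have h2 := hxr.2
  have : ∀ e, |(r⁻¹ • x) (φ e)| = r⁻¹ * |x (φ e)| := by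
    intro e
    simp [abs_mul, abs_of_pos hr]
  simp only [this] at h2
  rw [← Finset.mul_sum, inv_mul_le_iff₀ hr] at h2
  linarith

lemma M_body_le {k : ℕ} (φ : (Fin k → ℤˣ) ↪ Fin (4 ^ k)) : M (body φ) ≤ 2 := by
  have hn : 0 < 4 ^ k := by positivity
  have hint : ∀ e : Fin k → ℤˣ, Integrable
      (fun x : sphere (0 : E (4 ^ k)) 1 => (2 ^ k * ((x : E (4 ^ k)) (φ e)) ^ 2 + (2 ^ k)⁻¹) / 2)
      (sigma (4 ^ k)) := by
    intro e
    apply integrable_of_continuous
    fun_prop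
  have h1 : M (body φ) ≤ ∫ x : sphere (0 : E (4 ^ k)) 1,
      (1 + ∑ e, (2 ^ k * ((x : E (4 ^ k)) (φ e)) ^ 2 + (2 ^ k)⁻¹) / 2) ∂(sigma (4 ^ k)) := by
    apply integral_mono_of_nonneg
    · exact Filter.Eventually.of_forall fun x => gauge_nonneg _
    · apply integrable_of_continuous
      fun_prop
    · refine Filter.Eventually.of_forall fun x => ?_
      refine (gauge_body_le φ x (by simp)).trans ?_
      refine add_le_add le_rfl (Finset.sum_le_sum fun e _ => ?_)
      have h2k : (0 : ℝ) < 2 ^ k := by positivity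
      set t := |(x : E (4 ^ k)) (φ e)| with ht
      have ht2 : ((x : E (4 ^ k)) (φ e)) ^ 2 = t ^ 2 := by rw [ht, sq_abs]
      rw [ht2, le_div_iff₀ (by norm_num : (0 : ℝ) < 2)]
      have : 0 ≤ (2 ^ k * t - 1) ^ 2 / 2 ^ k := by positivity
      have h3 : (2 ^ k * t - 1) ^ 2 / 2 ^ k = 2 ^ k * t ^ 2 + (2 ^ k)⁻¹ - t * 2 := by
        field_simp; ring
      linarith
  refine h1.trans ?_
  rw [integral_add (integrable_const _) (integrable_finsetSum _ fun e _ => hint e),
    integral_finsetSum _ fun e _ => hint e]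
  have h2 : ∀ e : Fin k → ℤˣ, ∫ x : sphere (0 : E (4 ^ k)) 1,
      (2 ^ k * ((x : E (4 ^ k)) (φ e)) ^ 2 + (2 ^ k)⁻¹) / 2 ∂(sigma (4 ^ k)) = (2 ^ k)⁻¹ := by
    intro e
    rw [integral_div, integral_add, integral_const_mul, integral_sq hn, integral_const,
      measureReal_def, sigma_univ hn]
    · have h4 : ((4 ^ k : ℕ) : ℝ) = 2 ^ k * 2 ^ k := by
        push_cast; rw [← mul_pow]; norm_num
      rw [h4]
      have h2k : (0 : ℝ) < 2 ^ k := by positivity
      simp
    · apply integrable_of_continuous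
      fun_prop
    · exact integrable_const _
  simp only [h2]
  rw [integral_const, measureReal_def, sigma_univ hn]
  have hcard : Fintype.card (Fin k → ℤˣ) = 2 ^ k := by simp
  rw [Finset.sum_const, Finset.card_univ, hcard]
  have h2k : (0 : ℝ) < 2 ^ k := by positivity
  simp
  field_simp
  norm_num

lemma Mstar_body_le {n k : ℕ} (hn : 0 < n) (φ : (Fin k → ℤˣ) ↪ Fin n) :
    Mstar (body φ) ≤ 1 := by
  have h1 : Mstar (body φ) ≤ ∫ _x : sphere (0 : E n) 1, (1 : ℝ) ∂(sigma n) := by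
    have hb : ∀ x : sphere (0 : E n) 1, ∀ z ∈ (fun y : E n => ⟪(x : E n), y⟫) '' (body φ),
        z ≤ 1 := by
      rintro x z ⟨y, hy, rfl⟩
      have := real_inner_le_norm (x : E n) y
      have hx : ‖(x : E n)‖ = 1 := by simp
      rw [hx, one_mul] at this
      exact this.trans hy.1
    have h0 : (0 : E n) ∈ body φ := by simp [body]
    apply integral_mono_of_nonneg
    · refine Filter.Eventually.of_forall fun x => ?_
      apply le_csSup ⟨1, hb x⟩
      exact ⟨0, h0, by simp⟩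
    · exact integrable_const _
    · refine Filter.Eventually.of_forall fun x => ?_
      exact csSup_le ⟨_, ⟨0, h0, rfl⟩⟩ (hb x)
  refine h1.trans ?_
  rw [integral_const, measureReal_def, sigma_univ hn]
  simp

lemma Mstar_nonneg {n : ℕ} (K : Set (E n)) (hK : -K = K) : 0 ≤ Mstar K := by
  apply integral_nonneg
  intro x
  show 0 ≤ sSup ((fun y : E n => ⟪(x : E n), y⟫) '' K)
  rcases K.eq_empty_or_nonempty with rfl | ⟨y, hy⟩
  · simp
  by_cases hb : BddAbove ((fun y : E n => ⟪(x : E n), y⟫) '' K)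
  · have h1 : ⟪(x : E n), y⟫ ≤ sSup ((fun y : E n => ⟪(x : E n), y⟫) '' K) :=
      le_csSup hb ⟨y, hy, rfl⟩
    have hy' : -y ∈ K := by
      rw [← hK]; simpa using hy
    have h2 : ⟪(x : E n), -y⟫ ≤ sSup ((fun y : E n => ⟪(x : E n), y⟫) '' K) :=
      le_csSup hb ⟨-y, hy', rfl⟩
    rw [inner_neg_right] at h2
    linarith
  · rw [Real.sSup_of_not_bddAbove hb]

lemma MMstar_body_le {k : ℕ} (φ : (Fin k → ℤˣ) ↪ Fin (4 ^ k)) : MMstar (body φ) ≤ 2 := by
  have hn : 0 < 4 ^ k := by positivity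
  have hbdd : BddBelow (range fun T : E (4 ^ k) ≃ₗ[ℝ] E (4 ^ k) =>
      M (T '' body φ) * Mstar (T '' body φ)) := by
    refine ⟨0, ?_⟩
    rintro _ ⟨T, rfl⟩
    apply mul_nonneg
    · exact integral_nonneg fun x => gauge_nonneg _
    · apply Mstar_nonneg
      ext x
      constructor
      · rintro ⟨y, hy, hyx⟩
        refine ⟨-y, ?_, ?_⟩
        · have := (body_symmConvex φ).symm
          rw [← this]; simpa using hy
        · have hyx' : T y = -x := hyx
          show T (-y) = x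
          rw [map_neg, hyx', neg_neg]
      · rintro ⟨y, hy, rfl⟩
        refine ⟨-y, ?_, ?_⟩
        · have := (body_symmConvex φ).symm
          rw [← this]; simpa using hy
        · show T (-y) = -(T y)
          rw [map_neg]
  refine (ciInf_le hbdd (LinearEquiv.refl ℝ _)).trans ?_
  have himg : (LinearEquiv.refl ℝ (E (4 ^ k))) '' body φ = body φ := by
    ext x; simp
  rw [himg]
  have h1 := M_body_le φ
  have h2 := Mstar_body_le hn φ
  have h3 : 0 ≤ M (body φ) := integral_nonneg fun x => gauge_nonneg _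
  calc M (body φ) * Mstar (body φ) ≤ M (body φ) * 1 := by gcongr
    _ ≤ 2 := by linarith

/-! ### Moments of sums of signs -/

lemma sum_signs_succ {k : ℕ} (g : ℝ → ℝ) (e : Fin (k + 1) → ℤˣ) :
    ∑ d : Fin (k + 1) → ℤˣ, g (∑ i, ((e i : ℤ) : ℝ) * ((d i : ℤ) : ℝ)) =
      ∑ d : Fin k → ℤˣ, (g (∑ i, (((Fin.tail e) i : ℤ) : ℝ) * ((d i : ℤ) : ℝ) + 1) +
        g (∑ i, (((Fin.tail e) i : ℤ) : ℝ) * ((d i : ℤ) : ℝ) - 1)) := by
  rw [← (Fin.consEquiv (fun _ => ℤˣ)).sum_comp, Fintype.sum_prod_type, Finset.sum_comm]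
  apply Finset.sum_congr rfl
  intro d _
  have huniv : (Finset.univ : Finset ℤˣ) = {1, -1} := by decide
  rw [huniv, Finset.sum_pair (by decide)]
  simp only [Fin.consEquiv_apply, Fin.sum_univ_succ, Fin.cons_zero, Fin.cons_succ, Fin.tail]
  rcases Int.units_eq_one_or (e 0) with h | h <;> rw [h] <;> simp <;> ring_nf

lemma sum_sq {k : ℕ} (e : Fin k → ℤˣ) :
    ∑ d : Fin k → ℤˣ, (∑ i, ((e i : ℤ) : ℝ) * ((d i : ℤ) : ℝ)) ^ 2 = 2 ^ k * k := by
  induction k with
  | zero => simp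
  | succ k ih =>
    rw [sum_signs_succ (fun t => t ^ 2) e]
    have h : ∀ t : ℝ, (t + 1) ^ 2 + (t - 1) ^ 2 = 2 * t ^ 2 + 2 := by intro t; ring
    simp only [h]
    rw [Finset.sum_add_distrib, ← Finset.mul_sum, ih]
    simp
    ring

lemma sum_four {k : ℕ} (e : Fin k → ℤˣ) :
    ∑ d : Fin k → ℤˣ, (∑ i, ((e i : ℤ) : ℝ) * ((d i : ℤ) : ℝ)) ^ 4
      = 2 ^ k * (3 * k ^ 2 - 2 * k) := by
  induction k with
  | zero => simp
  | succ k ih =>
    rw [sum_signs_succ (fun t => t ^ 4) e]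
    have h : ∀ t : ℝ, (t + 1) ^ 4 + (t - 1) ^ 4 = 2 * t ^ 4 + (12 * t ^ 2 + 2) := by
      intro t; ring
    simp only [h]
    rw [Finset.sum_add_distrib, Finset.sum_add_distrib, ← Finset.mul_sum, ih, ← Finset.mul_sum,
      sum_sq]
    simp
    ring

/-- Khinchin-type lower bound. -/
lemma sum_abs {k : ℕ} (hk : 0 < k) (e : Fin k → ℤˣ) :
    2 ^ k * √(k / 3) ≤ ∑ d : Fin k → ℤˣ, |∑ i, ((e i : ℤ) : ℝ) * ((d i : ℤ) : ℝ)| := by
  have hk' : (0 : ℝ) < k := by exact_mod_cast hk
  set a : ℝ := √(3 * k) with ha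
  have ha0 : 0 < a := Real.sqrt_pos.2 (by positivity)
  have ha2 : a ^ 2 = 3 * k := Real.sq_sqrt (by positivity)
  have key : ∀ t : ℝ, 3 / (2 * a) * t ^ 2 - 1 / (2 * a ^ 3) * t ^ 4 ≤ |t| := by
    intro t
    have h0 := abs_nonneg t
    have ht2 : t ^ 2 = |t| ^ 2 := (sq_abs t).symm
    have ht4 : t ^ 4 = |t| ^ 4 := by
      have : t ^ 4 = (t ^ 2) ^ 2 := by ring
      rw [this, ht2]; ring
    rw [ht2, ht4]
    set u := |t|
    have h1 : 0 ≤ u * ((u - a) ^ 2 * (u + 2 * a)) / (2 * a ^ 3) := by positivity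
    have h2 : u * ((u - a) ^ 2 * (u + 2 * a)) / (2 * a ^ 3) =
        u - (3 / (2 * a) * u ^ 2 - 1 / (2 * a ^ 3) * u ^ 4) := by
      field_simp; ring
    linarith
  have hsum : ∑ d : Fin k → ℤˣ, (3 / (2 * a) * (∑ i, ((e i : ℤ) : ℝ) * ((d i : ℤ) : ℝ)) ^ 2
      - 1 / (2 * a ^ 3) * (∑ i, ((e i : ℤ) : ℝ) * ((d i : ℤ) : ℝ)) ^ 4) ≤
      ∑ d : Fin k → ℤˣ, |∑ i, ((e i : ℤ) : ℝ) * ((d i : ℤ) : ℝ)| :=
    Finset.sum_le_sum fun d _ => key _
  refine le_trans ?_ hsum
  rw [Finset.sum_sub_distrib, ← Finset.mul_sum, ← Finset.mul_sum, sum_sq, sum_four]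
  have hsq : √((k : ℝ) / 3) = a / 3 := by
    rw [ha, Real.sqrt_eq_iff_mul_self_eq (by positivity) (by positivity)]
    have : √(3 * (k : ℝ)) * √(3 * (k : ℝ)) = 3 * k := Real.mul_self_sqrt (by positivity)
    have h' : √(3 * (k : ℝ)) / 3 * (√(3 * (k : ℝ)) / 3) =
        (√(3 * (k : ℝ)) * √(3 * (k : ℝ))) / 9 := by ring
    rw [h', this]; ring
  rw [hsq]
  have hk3 : (k : ℝ) = a ^ 2 / 3 := by rw [ha2]; ring
  rw [hk3]
  have h2k : (0 : ℝ) < 2 ^ k := by positivity
  have : 3 / (2 * a) * (2 ^ k * (a ^ 2 / 3)) - 1 / (2 * a ^ 3) *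
      (2 ^ k * (3 * (a ^ 2 / 3) ^ 2 - 2 * (a ^ 2 / 3))) = 2 ^ k * (a / 3) + 2 ^ k / (3 * a) := by
    field_simp; ring
  rw [this]
  have : 0 ≤ 2 ^ k / (3 * a) := by positivity
  linarith

/-! ### The K-convexity constant -/

lemma expect_le {m : ℕ} (f : (Fin m → ℤˣ) → ℝ) (c : ℝ) (h : ∀ e, f e ≤ c) : expect f ≤ c := by
  unfold expect
  have hcard : Fintype.card (Fin m → ℤˣ) = 2 ^ m := by simp
  have h2k : (0 : ℝ) < 2 ^ m := by positivity
  have : ∑ e, f e ≤ 2 ^ m * c := by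
    calc ∑ e, f e ≤ ∑ _e : Fin m → ℤˣ, c := Finset.sum_le_sum fun e _ => h e
      _ = 2 ^ m * c := by rw [Finset.sum_const, Finset.card_univ, hcard]; simp
  rw [smul_eq_mul, inv_mul_le_iff₀ h2k]
  exact this

lemma le_expect {m : ℕ} (f : (Fin m → ℤˣ) → ℝ) (c : ℝ) (h : ∀ e, c ≤ f e) : c ≤ expect f := by
  unfold expect
  have hcard : Fintype.card (Fin m → ℤˣ) = 2 ^ m := by simp
  have h2k : (0 : ℝ) < 2 ^ m := by positivity
  have : 2 ^ m * c ≤ ∑ e, f e := by
    calc 2 ^ m * c = ∑ _e : Fin m → ℤˣ, c := by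
          rw [Finset.sum_const, Finset.card_univ, hcard]; simp
      _ ≤ ∑ e, f e := Finset.sum_le_sum fun e _ => h e
  rw [smul_eq_mul, le_inv_mul_iff₀ h2k]
  exact this

lemma Kconv_body_ge {n k : ℕ} (hk : 0 < k) (φ : (Fin k → ℤˣ) ↪ Fin n) :
    ENNReal.ofReal (√(k / 3)) ≤ Kconv (body φ) := by
  set f : (Fin k → ℤˣ) → E n := fun e => EuclideanSpace.single (φ e) 1 with hf
  have h1 : L2norm (body φ) f ≤ 1 := by
    unfold L2norm
    rw [Real.sqrt_le_one]
    apply expect_le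
    intro e
    have hmem : f e ∈ body φ := by
      refine ⟨by simp [hf], ?_⟩
      have : ∀ d, |(f e) (φ d)| = if d = e then 1 else 0 := by
        intro d
        by_cases hde : d = e
        · subst hde; simp [hf]
        · have : φ d ≠ φ e := fun h => hde (φ.injective h)
          simp [hf, hde, this]
      simp only [this]
      simp
    have h0 : 0 ≤ gauge (body φ) (f e) := gauge_nonneg _
    have h1 : gauge (body φ) (f e) ≤ 1 := gauge_le_one_of_mem hmem
    nlinarith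
  have hcoord : ∀ e d : Fin k → ℤˣ, (radProj f e) (φ d) =
      ((2 : ℝ) ^ k)⁻¹ * ∑ i, ((e i : ℤ) : ℝ) * ((d i : ℤ) : ℝ) := by
    intro e d
    have hin : ∀ i, (expect fun δ : Fin k → ℤˣ => ((δ i : ℤ) : ℝ) • f δ) (φ d) =
        ((2 : ℝ) ^ k)⁻¹ * ((d i : ℤ) : ℝ) := by
      intro i
      unfold expect
      have : ∀ δ : Fin k → ℤˣ, (((δ i : ℤ) : ℝ) • f δ) (φ d) =
          if d = δ then ((d i : ℤ) : ℝ) else 0 := by
        intro δ
        by_cases hde : d = δ
        · subst hde; simp [hf]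
        · have : φ d ≠ φ δ := fun h => hde (φ.injective h)
          simp [hf, hde, this]
      rw [PiLp.smul_apply, WithLp.ofLp_sum, Finset.sum_apply]
      simp only [this]
      simp
    unfold radProj
    rw [WithLp.ofLp_sum, Finset.sum_apply, Finset.mul_sum]
    apply Finset.sum_congr rfl
    intro i _
    rw [PiLp.smul_apply, hin, smul_eq_mul]
    ring
  have hg : ∀ e : Fin k → ℤˣ, √(k / 3) ≤ gauge (body φ) (radProj f e) := by
    intro e
    refine le_trans ?_ (le_gauge_body φ _)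
    simp only [hcoord]
    have h2k : (0 : ℝ) < 2 ^ k := by positivity
    have : ∀ d : Fin k → ℤˣ, |((2 : ℝ) ^ k)⁻¹ * ∑ i, ((e i : ℤ) : ℝ) * ((d i : ℤ) : ℝ)| =
        ((2 : ℝ) ^ k)⁻¹ * |∑ i, ((e i : ℤ) : ℝ) * ((d i : ℤ) : ℝ)| := by
      intro d
      rw [abs_mul, abs_of_pos (by positivity)]
    simp only [this]
    rw [← Finset.mul_sum, le_inv_mul_iff₀ h2k]
    exact sum_abs hk e
  have h2 : √(k / 3) ≤ L2norm (body φ) (radProj f) := by
    unfold L2norm
    apply Real.le_sqrt_of_sq_le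
    apply le_expect
    intro e
    have h0 : 0 ≤ √((k : ℝ) / 3) := Real.sqrt_nonneg _
    have := hg e
    gcongr
  calc ENNReal.ofReal (√(k / 3)) ≤ ENNReal.ofReal (L2norm (body φ) (radProj f)) :=
        ENNReal.ofReal_le_ofReal h2
    _ ≤ Kconv (body φ) := by
        unfold Kconv
        exact le_iSup_of_le k (le_iSup_of_le f (le_iSup_of_le h1 le_rfl))

/-- **The K-convexity constant is not bounded by a universal multiple of the `MM*` product**: for
every `C > 0` there are `n` and a symmetric convex body `K ⊂ ℝⁿ` with `K(X_K) > C · MM*(K)`. -/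
theorem result : ∀ C : ℝ, 0 < C → ∃ (n : ℕ) (K : Set (E n)),
    IsSymmConvexBody K ∧ ENNReal.ofReal (C * MMstar K) < Kconv K := by
  intro C hC
  obtain ⟨k, hk⟩ := exists_nat_gt (12 * C ^ 2)
  have hk0 : 0 < k := by
    have : (0 : ℝ) < k := lt_trans (by positivity) hk
    exact_mod_cast this
  have hcard : Fintype.card (Fin k → ℤˣ) ≤ Fintype.card (Fin (4 ^ k)) := by
    simp only [Fintype.card_pi, Fintype.card_units_int, Finset.prod_const, Finset.card_univ,
      Fintype.card_fin]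
    gcongr
    norm_num
  obtain ⟨φ⟩ := Function.Embedding.nonempty_of_card_le hcard
  refine ⟨4 ^ k, body φ, body_symmConvex φ, ?_⟩
  refine lt_of_lt_of_le ?_ (Kconv_body_ge hk0 φ)
  have hlt : 2 * C < √((k : ℝ) / 3) := by
    apply Real.lt_sqrt_of_sq_lt
    rw [mul_pow, lt_div_iff₀ (by norm_num : (0 : ℝ) < 3)]
    linarith
  have hle : C * MMstar (body φ) ≤ 2 * C := by
    have := MMstar_body_le φ
    nlinarith
  rw [ENNReal.ofReal_lt_ofReal_iff (by positivity)]
  exact lt_of_le_of_lt hle hlt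

end

end Pool.Agent.Results.MP_1453e0_an.NotEquivalent
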